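import Mathlib
import Pool.Agent.Lib.helper29.Wd3

set_option autoImplicit false

open Ordinal

namespace Pool.Agent.Results.MP_c20855_lc.Types

/-- The set `A(b)` of the reals whose binary digits are the shifts of the binary sequence `b`. -/
def A (b : ℕ → Bool) : Set ℝ :=
  Set.range fun i : ℕ => ∑' n : ℕ, ((b (n + i)).toNat : ℝ) / 2 ^ (n + 1)

theorem result :
    (∀ α : Ordinal.{0}, (∃ b : ℕ → Bool, Nonempty (A b ≃o Set.Iio α)) ↔
      (0 < α ∧ α < ω) ∨ ∃ γ : Ordinal.{0}, 1 ≤ γ ∧ γ < ω₁ ∧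
        (α = ω ^ (γ + 1) ∨ (ω ^ (γ + 1) * 2 ≤ α ∧ α < ω ^ (γ + 2)))) ∧
    ¬∃ b : ℕ → Bool, Nonempty (A b ≃o Set.Iio (Ordinal.epsilon 0 : Ordinal.{0})) := by
  have key : ∀ α : Ordinal.{0}, (∃ b : ℕ → Bool, Nonempty (A b ≃o Set.Iio α)) ↔
      (0 < α ∧ α < ω) ∨ ∃ γ : Ordinal.{0}, 1 ≤ γ ∧ γ < ω₁ ∧
        (α = ω ^ (γ + 1) ∨ (ω ^ (γ + 1) * 2 ≤ α ∧ α < ω ^ (γ + 2))) := by
    intro α
    rw [← Pool.Agent.Lib.H29.Shifts.main α]
    refine exists_congr fun b => ?_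
    have : A b = Pool.Agent.Lib.H29.Shifts.val '' Pool.Agent.Lib.H29.Shifts.Suf b := by
      rw [Pool.Agent.Lib.H29.Shifts.Suf, ← Set.range_comp]
      rfl
    rw [this]
  refine ⟨key, ?_⟩
  rw [key]
  have he := omega0_opow_epsilon 0
  rintro (⟨-, h⟩ | ⟨γ, -, -, h | ⟨h1, h2⟩⟩)
  · exact absurd h (not_lt.2 (omega0_lt_epsilon 0).le)
  · have h2 : Ordinal.epsilon 0 = γ + 1 := (opow_right_inj one_lt_omega0).1 (he.trans h)
    have h3 : Order.IsSuccLimit (ω ^ (γ + 1)) :=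
      isSuccLimit_opow_left isSuccLimit_omega0 (zero_lt_one.trans_le le_add_self).ne'
    rw [← h, h2] at h3
    exact Order.not_isSuccLimit_succ γ h3
  · rw [← he, opow_lt_opow_iff_right one_lt_omega0, ← one_add_one_eq_two, ← add_assoc,
      Order.lt_add_one_iff] at h2
    have h3 := h1.trans (he.ge.trans (opow_le_opow_right omega0_pos h2))
    rw [Ordinal.mul_two] at h3
    exact absurd h3 (not_le.2 (lt_add_of_pos_right _ (opow_pos _ omega0_pos)))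

end Pool.Agent.Results.MP_c20855_lc.Types
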